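import Pool.Agent.Helper76.FX.Pow

/-!
# MP_491344_nt: the thresholds for sets of given factor complexity

`rep A n` is the number of ordered pairs of elements of `A` with sum `n`, and `complexity A L` the
factor complexity `p_A(L)`: the number of different blocks of `L` consecutive terms of the
characteristic sequence of `A`. A set has *linear complexity* if `p_A(L) = O(L)`; examples are all
sets recognised by finite automata from the digits in some base, and all sets with Sturmian or
primitive substitutive characteristic sequences.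

1. (Inequality.) If `rep A n < 2 ^ (t + 1)` for all `n` and `p_A(L) ≤ Φ L` for all `L ≤ 2 N`, then
   `|A ∩ [1, N]| ≤ (2 ^ (t + 6) Φ log N) ^ t`.
2. (Exact exponent for linear complexity.) If `A` has linear complexity and `rep A ≤ R`, then
   `|A ∩ [1, N]| = O ((log N) ^ k)` with `k = ⌊log_2 R⌋`, and for every `R ≥ 1` some `A` of linear
   complexity with `rep A ≤ R` has `≫ (log N) ^ k` elements up to `N`.
3. (Exact thresholds for linear complexity.) `g` forces unbounded representations inside the class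
   of all sets of linear complexity if and only if `√N / g(N)` is not `O ((log N) ^ k)`, for all `k`.
4. (Exact thresholds between linear complexity and complexity `L ^ (1 + o(1))`.) Let `φ` be
   nondecreasing, `log N ≤ φ(N) ≤ N ^ o(1)` and `φ(N ^ 2) ≤ φ(N) ^ O(1)`, for instance
   `φ(N) = log N` or `φ(N) = exp ((log N) ^ θ)`, `0 < θ < 1`. `g` forces unbounded representations
   inside the class of all sets with `p_A(L) ≤ L φ(L) ^ O(1)` if and only if `√N / g(N)` is not
   `≤ φ(N) ^ C` for all large `N`, for all `C`.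
5. (Polynomial complexity.) Let `γ ≥ 1` and `0 < β < 1 / 2`. The function `N ^ β` forces unbounded
   representations inside the class of all sets with `p_A(L) ≤ L ^ (γ + o(1))` if and only if
   `γ = 1`.

Proof of 1, by induction on `t`. Call a block of a window `I` repeated if a disjoint translate of
it inside `I` carries the same elements of `A`. For a repeated block the maximal number of
representations inside the block is at most half of that inside `I`, so the block has few elements
by induction. Every element of `A ∩ I` lies in a nonempty dyadic block of `I` which is repeated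
while its parent is not; and at each of the `log |I|` levels only `O_t(Φ)` nonempty dyadic blocks of
length `l` are not repeated, since each of them is contained in `l` windows of length `2 l` whose
factors occur for no other block, and occur at most `2 ^ t` times for the same block (otherwise
`A` has a short period there and contains a long arithmetic progression).

The examples are the sets of all numbers whose digits in a suitable mixed radix system
`M_0 ∣ M_1 ∣ ...` lie in finite Sidon sets and which have at most one nonzero digit in each residue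
class of places modulo `k`. They satisfy `rep A ≤ 2 ^ k` and `p_A(L) ≤ 4 ^ (k + 1) M_l` for
`L ≤ M_l`.
-/

set_option autoImplicit false

open Filter

namespace Pool.Agent.Results.MP_491344_nt.FactorComplexityThresholds

/-- `r_A(n)`: the number of ordered pairs `(a, b) ∈ A × A` with `a + b = n`. -/
noncomputable def rep (A : Set ℕ) (n : ℕ) : ℕ :=
  {p : ℕ × ℕ | p.1 ∈ A ∧ p.2 ∈ A ∧ p.1 + p.2 = n}.ncard

/-- The factor complexity `p_A(L)`: the number of different subsets
`{i | 0 ≤ i < L, s + i ∈ A}` of `{0, ..., L - 1}`, for `s = 0, 1, 2, ...`. -/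
noncomputable def complexity (A : Set ℕ) (L : ℕ) : ℕ :=
  (Set.range (fun s : ℕ => {i : Fin L | s + (i : ℕ) ∈ A})).ncard

/-- `|A ∩ [1, N]| ≫ √N / g(N)` -/
def Dense (g : ℕ → ℝ) (A : Set ℕ) : Prop :=
  ∃ C : ℝ, 0 < C ∧ ∀ᶠ N : ℕ in atTop, Real.sqrt N / g N ≤ C * ((A ∩ Set.Icc 1 N).ncard : ℝ)

/-- `g` forces unbounded representations inside the class `𝒞` -/
def ForcesIn (𝒞 : Set ℕ → Prop) (g : ℕ → ℝ) : Prop :=
  ∀ A : Set ℕ, 𝒞 A → Dense g A → ∀ K : ℕ, ∃ n, K < rep A n

/-- linear factor complexity: `p_A(L) ≤ C L` for all `L ≥ 1` -/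
def Linear (A : Set ℕ) : Prop := ∃ C : ℕ, ∀ L, 1 ≤ L → complexity A L ≤ C * L

/-- `p_A(L) ≤ L φ(L) ^ C` for all large `L`, for some `C` -/
def NearLinear (φ : ℕ → ℝ) (A : Set ℕ) : Prop :=
  ∃ C : ℕ, ∀ᶠ L : ℕ in atTop, (complexity A L : ℝ) ≤ L * φ L ^ C

/-- `p_A(L) ≤ L ^ (γ + o(1))` -/
def Polynomial (γ : ℝ) (A : Set ℕ) : Prop :=
  ∀ ε : ℝ, 0 < ε → ∀ᶠ L : ℕ in atTop, (complexity A L : ℝ) ≤ (L : ℝ) ^ (γ + ε)

/-- **The thresholds for sets of given factor complexity.** -/
theorem result :
    -- 1. the inequality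
    (∀ (A : Set ℕ) (t N Φ : ℕ), 1 ≤ Φ → 3 ≤ N → (∀ n, rep A n < 2 ^ (t + 1)) →
      (∀ L, 1 ≤ L → L ≤ 2 * N → complexity A L ≤ Φ * L) →
      ((A ∩ Set.Icc 1 N).ncard : ℝ) ≤ (2 ^ (t + 6) * Φ * Real.log N) ^ t) ∧
    -- 2. linear complexity: the exact exponent
    (∀ R : ℕ, 1 ≤ R →
      (∀ A : Set ℕ, Linear A → (∀ n, rep A n ≤ R) → ∃ C : ℝ, ∀ᶠ N : ℕ in atTop,
        ((A ∩ Set.Icc 1 N).ncard : ℝ) ≤ C * Real.log N ^ Nat.log 2 R) ∧
      ∃ A : Set ℕ, Linear A ∧ (∀ n, rep A n ≤ R) ∧ ∃ c : ℝ, 0 < c ∧ ∀ᶠ N : ℕ in atTop,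
        c * Real.log N ^ Nat.log 2 R ≤ ((A ∩ Set.Icc 1 N).ncard : ℝ)) ∧
    -- 3. linear complexity: the exact thresholds
    (∀ g : ℕ → ℝ, ForcesIn Linear g ↔
      ∀ (k : ℕ) (C : ℝ), ∃ᶠ N : ℕ in atTop, C * Real.log N ^ k < Real.sqrt N / g N) ∧
    -- 4. the exact thresholds between linear complexity and complexity `L ^ (1 + o(1))`
    (∀ φ : ℕ → ℝ, Monotone φ → (∀ᶠ N : ℕ in atTop, Real.log N ≤ φ N) →
      (∃ c : ℕ, ∀ᶠ N : ℕ in atTop, φ (N ^ 2) ≤ φ N ^ c) →
      (∀ ε : ℝ, 0 < ε → ∀ᶠ N : ℕ in atTop, φ N ≤ (N : ℝ) ^ ε) → ∀ g : ℕ → ℝ,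
      (ForcesIn (NearLinear φ) g ↔ ∀ C : ℕ, ∃ᶠ N : ℕ in atTop, φ N ^ C < Real.sqrt N / g N)) ∧
    -- 5. polynomial complexity
    (∀ γ β : ℝ, 1 ≤ γ → 0 < β → β < 1 / 2 →
      (ForcesIn (Polynomial γ) (fun N => (N : ℝ) ^ β) ↔ γ = 1)) := by
  refine ⟨?_, ?_, ?_, ?_, ?_⟩
  · intro A t N Φ h1 h2 h3 h4
    exact Pool.Agent.Helper76.FX.ineq_log A t N Φ h1 h2 h3 h4
  · intro R hR
    refine ⟨?_, ?_⟩
    · intro A hA hr
      obtain ⟨C, _, h⟩ := Pool.Agent.Helper76.FX.linear_upper hA hr
      exact ⟨C, h⟩
    · rcases Nat.lt_or_ge 1 R with hlt | hge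
      · have hk : 1 ≤ Nat.log 2 R := Nat.log_pos (by norm_num) hlt
        refine ⟨Pool.Agent.Helper76.FX.dset (fun _ => 4) (fun _ => {0, 1}) (Nat.log 2 R),
          Pool.Agent.Helper76.FX.linear_dset _ hk, ?_,
          Pool.Agent.Helper76.FX.linear_lower _ hk⟩
        intro n
        exact (Pool.Agent.Helper76.FX.rep_dset Pool.Agent.Helper76.FX.good_four hk n).trans
          (Nat.pow_log_le_self 2 (by omega))
      · have hR1 : R = 1 := by omega
        subst hR1
        refine ⟨{1}, ⟨3, ?_⟩, ?_, 1, one_pos, ?_⟩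
        · intro L hL
          have h1 := Pool.Agent.Helper76.FX.ncard_range_le
            (fun s : ℕ => {i : Fin L | s + (i : ℕ) ∈ ({1} : Set ℕ)}) (fun s => min s 2)
            (Finset.range 3) (fun s => by
              rw [Finset.mem_range]
              have := min_le_right s 2
              omega) (by
              intro s s' h
              ext i
              change s + (i : ℕ) = 1 ↔ s' + (i : ℕ) = 1
              omega)
          rw [Finset.card_range] at h1
          exact h1.trans (by omega)
        · intro n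
          have h1 : {p : ℕ × ℕ | p.1 ∈ ({1} : Set ℕ) ∧ p.2 ∈ ({1} : Set ℕ) ∧ p.1 + p.2 = n} ⊆
              {(1, 1)} := by
            rintro ⟨a, b⟩ ⟨h1, h2, _⟩
            simp only [Set.mem_singleton_iff] at h1 h2
            subst h1 h2
            rfl
          refine (Set.ncard_le_ncard h1 (Set.finite_singleton _)).trans ?_
          rw [Set.ncard_singleton]
        · filter_upwards [eventually_ge_atTop 1] with N hN
          have h1 : ({1} : Set ℕ) ∩ Set.Icc 1 N = {1} := by
            ext x
            simp only [Set.mem_inter_iff, Set.mem_singleton_iff, Set.mem_Icc]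
            omega
          rw [h1, Set.ncard_singleton]
          simp
  · intro g
    exact Pool.Agent.Helper76.FX.linear_thr g
  · rintro φ h1 h2 ⟨c, h3⟩ h4 g
    exact Pool.Agent.Helper76.FX.cl_thr h1 h2 h3 h4 g
  · intro γ β h1 h2 h3
    exact Pool.Agent.Helper76.FX.pw_thr h1 h2 h3

end Pool.Agent.Results.MP_491344_nt.FactorComplexityThresholds
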