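import Pool.Agent.Helper42.GT.Always
import Pool.Agent.Helper42.GT.DGR
import Pool.Agent.Helper42.GT.PAR
import Pool.Agent.Helper42.GT.BLK
import Pool.Agent.Helper42.GT.REP
import Pool.Agent.Helper42.GT.AL2
import Pool.Agent.Helper42.GT.AL3
import Pool.Agent.Helper42.GT.GRQ
import Pool.Agent.Helper42.GT.QST
import Pool.Agent.Helper42.GT.AL4
import Pool.Agent.Helper42.GT.AL5
import Pool.Agent.Helper42.GT.AL6
import Pool.Agent.Helper42.GT.AL7

/-!
# MP_491344_nt: the exact number of representations forced by compressibility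

`rep A n` is the number of ordered pairs of elements of `A` with sum `n`. The *grammar complexity*
`gram A N` is the least number of rules of a straight-line grammar for the first `n` letters of the
characteristic sequence of `A`, for some `n ≥ N`. The *cost* of a finite set is the least number of
steps in which it can be built, where a step forms a set with at most one element or the union of
disjoint translates of two sets formed before; `cost (A ∩ [0, N)) ≤ 2 gram A N`.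

`Powers κ` is the class of all `A` with `gram A N ≤ N ^ (κ + o(1))`, and `Cheap κ` the larger class of all
`A` with `cost (A ∩ [0, N)) ≤ N ^ (κ + o(1))`. Consider ANY class `𝒞` between the two, `κ > 0`.

1. (Many elements for infinitely many `N`.) Let `0 < α ≤ 1 / 2`. The least `R` such that some set of
   the class has `|A ∩ [1, N]| ≥ N ^ (α - o(1))` for infinitely many `N` and `rep A n ≤ R` for all `n` is
   exactly `2 ^ ⌈α / κ⌉`.
2. (Many elements for all large `N`.) Let `0 < α < 1 / 2`. The least `R` such that some set of the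
   class has `|A ∩ [1, N]| ≥ N ^ α` for all large `N` and `rep A n ≤ R` for all `n` exists and is at least
   `2 ^ ⌈α / κ⌉`. If `α < 1 / (2 e)`, then this is sharp for small `κ`: for every `c > α` and all small
   `κ` it is at most `2 ^ ⌈c / κ⌉`, so that it is `2 ^ ((α + o(1)) / κ)` for `κ → 0`. In general it is at
   most `2 ^ ⌈c / κ⌉` for all small `κ` if `α < ∫ x in 0..c, min 1 (u exp (- 2 u x))` for some `u > 0`. For
   example, every `c > log (1 / (1 - 2 α)) / 2` is possible (`u = 1`); if `α < 1 / (2 e)`, every `c > α`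
   (`u = e`); if `α = 1 / 4`, every `c ≥ 0.264` (`u = 2.28`).
3. In the terms of the question: for classes as above, `κ ≥ 0`, and `0 < β < 1 / 2`, the function
   `N ^ β` forces unbounded representations inside the class if and only if `κ = 0`.

The lower bounds are based on `|S| ≤ cost S ^ t` for finite subsets `S` of a set with
`rep A n < 2 ^ (t + 1)` (`TranslateComplexity`). For 1 sparse blocks `2 ^ E + ∑ d_i 2 ^ (l + ρ i)`, `i < k`,
with digits `d_i` in finite Sidon sets are used. In 2 the sets are of the type of helper76's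
`FactorComplexityThresholds` (at most one nonzero digit in each residue class of places modulo `k`).
The radices of these systems are larger than needed (by a factor of about `u` in the exponent), so
that many of the `k` top digits can be chosen from sets of the same size.
Parts of the proofs were written by helper90 (`LOW`), helper94 (`PAR`), helper27 (`AL2`), helper63
(`AL3`), helper36 (`QST`), helper26 (`AL4`), helper81 (`AL5`) and helper52 (`AL6`).
-/

set_option autoImplicit false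

open Filter

namespace Pool.Agent.Results.MP_491344_nt.RepresentationTradeOff

open Pool.Agent.Helper42.GC (gram Powers)
open Pool.Agent.Helper42.GP (cost seg)
open Pool.Agent.Helper42.GT (Often Always Cheap)

/-- `r_A(n)`: the number of ordered pairs `(a, b) ∈ A × A` with `a + b = n`. -/
noncomputable def rep (A : Set ℕ) (n : ℕ) : ℕ :=
  {p : ℕ × ℕ | p.1 ∈ A ∧ p.2 ∈ A ∧ p.1 + p.2 = n}.ncard

/-- `|A ∩ [1, N]| ≫ √N / g(N)` -/
def Dense (g : ℕ → ℝ) (A : Set ℕ) : Prop :=
  ∃ C : ℝ, 0 < C ∧ ∀ᶠ N : ℕ in atTop, Real.sqrt N / g N ≤ C * ((A ∩ Set.Icc 1 N).ncard : ℝ)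

/-- `g` forces unbounded representations inside the class `𝒞` -/
def ForcesIn (𝒞 : Set ℕ → Prop) (g : ℕ → ℝ) : Prop :=
  ∀ A : Set ℕ, 𝒞 A → Dense g A → ∀ K : ℕ, ∃ n, K < rep A n

/-- the classes between `Powers κ` and `Cheap κ` -/
def Between (κ : ℝ) (𝒞 : Set ℕ → Prop) : Prop :=
  (∀ A, Powers κ A → 𝒞 A) ∧ ∀ A, 𝒞 A → Cheap κ A

/-- `R` is the least number such that some set of the class `𝒞` with the property `D` has
`rep A n ≤ R` for all `n`. -/
def LeastBound (𝒞 D : Set ℕ → Prop) (R : ℕ) : Prop :=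
  IsLeast {R : ℕ | ∃ A : Set ℕ, 𝒞 A ∧ D A ∧ ∀ n, rep A n ≤ R} R

/-- **The exact number of representations forced by compressibility.** -/
theorem result :
    -- 1. the exact number for infinitely many `N`
    (∀ (α κ : ℝ) (𝒞 : Set ℕ → Prop), 0 < α → α ≤ 1 / 2 → 0 < κ → Between κ 𝒞 →
      LeastBound 𝒞 (Often α) (2 ^ ⌈α / κ⌉₊)) ∧
    -- 2. the number for all large `N`
    (∀ (α κ : ℝ) (𝒞 : Set ℕ → Prop), 0 < α → α < 1 / 2 → 0 < κ → Between κ 𝒞 →
      ∃ R, LeastBound 𝒞 (Always α) R ∧ 2 ^ ⌈α / κ⌉₊ ≤ R) ∧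
    (∀ α c : ℝ, 0 < α → (α < Real.exp (-1) / 2 ∧ α < c) ∨
        (α < 1 / 2 ∧ Real.log (1 / (1 - 2 * α)) / 2 < c) ∨
        (0 < c ∧ ∃ u : ℝ, 0 < u ∧ α < ∫ x in (0 : ℝ)..c, min 1 (u * Real.exp (-(2 * u * x)))) →
      ∃ κ₀ : ℝ, 0 < κ₀ ∧ ∀ (κ : ℝ) (𝒞 : Set ℕ → Prop) (R : ℕ), 0 < κ → κ ≤ κ₀ → Between κ 𝒞 →
        LeastBound 𝒞 (Always α) R → R ≤ 2 ^ ⌈c / κ⌉₊) ∧
    -- 3. the powers of `N`
    (∀ (κ β : ℝ) (𝒞 : Set ℕ → Prop), 0 ≤ κ → 0 < β → β < 1 / 2 → Between κ 𝒞 →
      (ForcesIn 𝒞 (fun N => (N : ℝ) ^ β) ↔ κ = 0)) := by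
  have hW := Pool.Agent.Helper42.GT.WRD.main Pool.Agent.Helper42.GT.BLK.main
  have hP := Pool.Agent.Helper42.GT.PAR.main Pool.Agent.Helper42.GT.BLK.main
    Pool.Agent.Helper42.GT.REP.main hW
  have hA := Pool.Agent.Helper42.GT.AL3.main
    (Pool.Agent.Helper42.GT.AL2.main Pool.Agent.Helper42.GT.DGR.main)
  have hA' := Pool.Agent.Helper42.GT.AL5.main
    (Pool.Agent.Helper42.GT.AL4.main Pool.Agent.Helper42.GT.QST.main Pool.Agent.Helper42.GT.GRQ.main)
  have hA'' := Pool.Agent.Helper42.GT.AL7.main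
    (Pool.Agent.Helper42.GT.AL6.main Pool.Agent.Helper42.GT.QST.main Pool.Agent.Helper42.GT.GRQ.main)
  refine ⟨?_, ?_, ?_, ?_⟩
  · intro α κ 𝒞 h1 h2 h3 h4
    exact Pool.Agent.Helper42.GT.least hP h3 h1 h2 h4.1 h4.2
  · intro α κ 𝒞 h1 h2 h3 h4
    exact Pool.Agent.Helper42.GT.always_least h1 h2 h3 h4.1 h4.2
  · rintro α c h1 (⟨h2, h3⟩ | ⟨h2, h3⟩ | ⟨h2, u, hu, h3⟩)
    · obtain ⟨κ₀, h4, h5⟩ := hA' α c h1 h2 h3
      refine ⟨κ₀, h4, fun κ 𝒞 R h6 h7 h8 h9 => ?_⟩
      obtain ⟨A, hA1, hA2, hA3⟩ := h5 κ h6 h7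
      exact h9.2 ⟨A, h8.1 A hA1, hA3, hA2⟩
    · obtain ⟨κ₀, h4, h5⟩ := hA α c h1 h2 h3
      refine ⟨κ₀, h4, fun κ 𝒞 R h6 h7 h8 h9 => ?_⟩
      obtain ⟨A, hA1, hA2, hA3⟩ := h5 κ h6 h7
      exact h9.2 ⟨A, h8.1 A hA1, hA3, hA2⟩
    · obtain ⟨κ₀, h4, h5⟩ := hA'' α c u h1 h2 hu h3
      refine ⟨κ₀, h4, fun κ 𝒞 R h6 h7 h8 h9 => ?_⟩
      obtain ⟨A, hA1, hA2, hA3⟩ := h5 κ h6 h7
      exact h9.2 ⟨A, h8.1 A hA1, hA3, hA2⟩
  · intro κ β 𝒞 h1 h2 h3 h4
    exact Pool.Agent.Helper42.GT.forces_iff h1 h2 h3 h4.1 h4.2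

end Pool.Agent.Results.MP_491344_nt.RepresentationTradeOff
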