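import Pool.Agent.Helper85.SP.FOU
import Pool.Agent.Helper85.SP.INQ
import Pool.Agent.Helper85.SP.CONV
import Pool.Agent.Helper85.SP.IND
import Pool.Agent.Helper85.SP.SHARP
import Pool.Agent.Helper85.SP.THIN
import Pool.Agent.Helper85.SP.AVOID
import Pool.Agent.Helper85.SP.EXP
import Pool.Agent.Helper85.SP.SCALE
import Pool.Agent.Helper85.SP.RED
import Pool.Agent.Helper85.SP.FIN

/-!
# MP_491344_nt: representation counts and functions of small Wiener norm

`rep A n` is the number of ordered pairs of elements of `A` with sum `n`, and `seg A N` the set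
`A ∩ [0, N)`. For a complex function `F` on `ℤ / M` let `spec F` be its Wiener norm, the sum of the
absolute values of its Fourier coefficients, and `mass F` the sum of the numbers `|F x| ^ 2`.

1. If `rep A ≤ R` and `2 N ≤ M`, then `|∑_{s ∈ S} F s| ^ 4 ≤ R |S| ^ 2 spec F ^ 2 mass F` for all
   `S ⊆ A ∩ [0, N)` and ALL functions `F` on `ℤ / M`. In particular the Wiener norm of (the indicator
   function of) `A ∩ [0, N)` is comparable to `√|A ∩ [0, N)|`: it is as large as possible.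
2. This is sharp up to a constant factor for all proportions of the norm and the mass: for all
   `x, y ≥ 1` there is a set `S ⊆ [0, 2 x y)` with `|S| ^ 2 ≥ x y / C` and `rep S ≤ 4`, and for all
   `M ≥ 4 x y` a function `F` with values in `[0, 1]` on `ℤ / M`, which is at least `1 / 2` on `S`,
   with `spec F ≤ (4 x) ^ (1 / 4)` and `mass F ≤ 4 √x y`.
3. (The sets of the question avoid such functions.) Let `β < 1 / 2` and `β + κ < δ / 2`. For some
   `η > 0` the following holds: if `rep A` is bounded and `|A ∩ [1, N]| ≫ √N / g(N)`,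
   `0 < g(N) ≤ N ^ β`, then for all large `N`, all `M ≥ 2 N` and all `F` on `ℤ / M` with
   `spec F ≤ N ^ κ` and `mass F ≤ N ^ (1 - δ)` the sum of `F` over `A ∩ [0, N)` has absolute value at
   most `N ^ (-η) |A ∩ [0, N)|`.
4. (Exact threshold, powers.) Let `0 < β < 1 / 2`. Inside the class of the sets `A` for which the
   Wiener norm of `A ∩ [0, N)` is at most `N ^ (κ - δ)` for some `δ > 0` and all large `N`, the
   function `N ^ β` forces unbounded representations if and only if `β + 2 κ ≤ 1 / 2`.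
5. (Exact thresholds, all smaller scales.) Let `φ` be nondecreasing, `log N ≤ φ(N) ≤ N ^ o(1)`,
   `φ(N ^ 2) ≤ φ(N) ^ O(1)`. For EVERY class which contains all sets with at most `φ(N) ^ O(1)`
   elements below `N` (for instance the class `SpecScale φ` of the sets whose Wiener norm below `N` is
   at most `φ(N) ^ O(1)`) and is contained in the class `SpecHosted φ` of the sets which are
   correlated with functions of Wiener norm at most `φ(N) ^ O(1)`: `g` forces unbounded
   representations inside the class if and only if for all `C` one has `√N / g(N) > φ(N) ^ C` for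
   infinitely many `N`.
6. (Reduction.) A function `0 < g(N) ≤ N ^ o(1)` forces unbounded representations if and only if it
   does so inside the class `Pseudo` of the sets with the property in 3 for all `κ < δ / 2`; and
   Question 1 has a positive answer if and only if some `g → ∞` forces unbounded representations
   inside this class.
-/

set_option autoImplicit false

open Finset Filter

namespace Pool.Agent.Results.MP_491344_nt.SpectralThresholds

open Pool.Agent.Helper85.SP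

/-- **Representation counts and functions of small Wiener norm.** -/
theorem result :
    -- 1. the inequality, and the Wiener norm of the set itself
    (∀ (A : Set ℕ) (R : ℕ), (∀ n, rep A n ≤ R) → ∀ (N M : ℕ) [NeZero M], 2 * N ≤ M →
      (∀ (S : Finset ℕ), (∀ s ∈ S, s ∈ A ∧ s < N) → ∀ F : ZMod M → ℂ,
        ‖∑ s ∈ S, F (s : ZMod M)‖ ^ 4 ≤ R * (S.card : ℝ) ^ 2 * spec F ^ 2 * mass F) ∧
      ((seg A N).card : ℝ) ≤ R * spec (ind (seg A N) M) ^ 2 ∧
      spec (ind (seg A N) M) ^ 2 ≤ (seg A N).card) ∧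
    -- 2. sharpness
    (∃ C : ℝ, ∀ x y : ℕ, 1 ≤ x → 1 ≤ y → ∃ S : Finset ℕ,
      (∀ s ∈ S, s < 2 * x * y) ∧ (∀ n, rep (S : Set ℕ) n ≤ 4) ∧
      (x * y : ℝ) ≤ C * (S.card : ℝ) ^ 2 ∧
      ∀ (M : ℕ) [NeZero M], 4 * x * y ≤ M → ∃ F : ZMod M → ℂ,
        (∀ z, ∃ r : ℝ, F z = r ∧ 0 ≤ r ∧ r ≤ 1) ∧ (∀ s ∈ S, 1 / 2 ≤ (F (s : ZMod M)).re) ∧
        spec F ^ 4 ≤ 4 * x ∧ mass F ^ 2 ≤ 16 * x * y ^ 2) ∧
    -- 3. the sets of the question avoid functions of small Wiener norm and mass
    (∀ β κ δ : ℝ, β < 1 / 2 → β + κ < δ / 2 → ∃ η : ℝ, 0 < η ∧ ∀ (A : Set ℕ) (g : ℕ → ℝ),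
      (∃ R : ℕ, ∀ n, rep A n ≤ R) → Dense g A →
      (∀ᶠ N : ℕ in atTop, 0 < g N ∧ g N ≤ (N : ℝ) ^ β) → ∀ᶠ N : ℕ in atTop,
        ∀ (M : ℕ) [NeZero M] (F : ZMod M → ℂ), 2 * N ≤ M → spec F ≤ (N : ℝ) ^ κ →
          mass F ≤ (N : ℝ) ^ (1 - δ) →
            (N : ℝ) ^ η * ‖∑ a ∈ seg A N, F (a : ZMod M)‖ ≤ (seg A N).card) ∧
    -- 4. the exact threshold for powers
    (∀ β κ : ℝ, 0 < β → β < 1 / 2 →
      (ForcesIn (SpecExp κ) (fun N => (N : ℝ) ^ β) ↔ β + 2 * κ ≤ 1 / 2)) ∧
    -- 5. exact thresholds at smaller scales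
    (∀ φ : ℕ → ℝ, Monotone φ → (∀ᶠ N : ℕ in atTop, Real.log N ≤ φ N) →
      (∃ c : ℕ, ∀ᶠ N : ℕ in atTop, φ (N ^ 2) ≤ φ N ^ c) →
      (∀ ε : ℝ, 0 < ε → ∀ᶠ N : ℕ in atTop, φ N ≤ (N : ℝ) ^ ε) →
      (∀ A, Small φ A → SpecScale φ A) ∧ (∀ A, SpecScale φ A → SpecHosted φ A) ∧
      ∀ 𝒞 : Set ℕ → Prop, (∀ A, Small φ A → 𝒞 A) → (∀ A, 𝒞 A → SpecHosted φ A) →
        ∀ g : ℕ → ℝ,
          (ForcesIn 𝒞 g ↔ ∀ C : ℕ, ∃ᶠ N : ℕ in atTop, φ N ^ C < Real.sqrt N / g N)) ∧
    -- 6. reduction to spectrally pseudorandom sets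
    (∀ g : ℕ → ℝ, (∀ᶠ N : ℕ in atTop, 0 < g N) →
      (∀ ε : ℝ, 0 < ε → ∀ᶠ N : ℕ in atTop, g N ≤ (N : ℝ) ^ ε) →
      (ForcesIn (fun _ => True) g ↔ ForcesIn Pseudo g)) ∧
    ((∃ g : ℕ → ℝ, Tendsto g atTop atTop ∧ ForcesIn (fun _ => True) g) ↔
      ∃ g : ℕ → ℝ, Tendsto g atTop atTop ∧ ForcesIn Pseudo g) := by
  have hinq : S_INQ := INQ.main FOU.main
  have hconv : S_CONV := CONV.main FOU.main
  have hind : S_IND := IND.main hconv
  have havoid : S_AVOID := AVOID.main hinq
  refine ⟨?_, SHARP.main hconv, havoid, EXP.main hinq hind THIN.main, SCALE.main hinq hind,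
    RED.main havoid⟩
  intro A R hr N M _ hM
  exact ⟨hinq A R hr N M hM, FIN.comparable hinq hind A R hr N M hM⟩

end Pool.Agent.Results.MP_491344_nt.SpectralThresholds
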