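import Pool.Agent.Helper42.GP.Thr

/-!
# MP_491344_nt: cheap sets, their dense subsets, and thresholds

`rep A n` is the number of ordered pairs of elements of `A` with sum `n`. The *cost* `cost S` of a
finite set `S` is the least number of steps in which it can be built, where in one step one forms a
set with at most one element or the union of disjoint translates of two sets formed before. Direct sums
of small sets are cheap, for example, and so are the sets of the places of a letter in a word given by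
a small straight-line grammar. `hits A S` is the number of the elements of `A` in `S`.

1. If `rep A n < 2 ^ (t + 1)` for all `n`, then `|S| ≤ cost S ^ t` for all finite subsets `S` of `A`,
   and the exponent `t` is optimal for every `t ≥ 1`.
2. (Power saving.) If `rep A n < 2 ^ (t + 1)` for all `n` and `q = 5 · 2 ^ t`, then
   `hits A S ^ q ≤ 64 ^ q (40 cost S) ^ (2 t) |S| ^ (q - 1)` for ALL finite sets `S`.
3. Cheap sets: `cost S ≤ 2 |S| + 1`; `cost (X + Y) ≤ cost X + cost Y + 1` for direct sums;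
   `cost (M ∩ [0, N)) ≤ 2 gram M N`, the grammar complexity; this is `O(log N)` for morphic and
   `S`-adic sets of exponential growth, so that 2 is a power saving for the part of `A` in `M`.
4. (The sets of the question avoid cheap sets.) For every `t` and `β < 1 / 2` there is `ε > 0` with
   the following property. Let `rep A n < 2 ^ (t + 1)` for all `n` and
   `|A ∩ [1, N]| ≫ √N / g(N)`, `0 < g(N) ≤ N ^ β`. Then, for all large `N`, every finite set `S` of
   cost at most `N ^ ε` contains at most `N ^ (-ε) max (|S|, |A ∩ [0, N)|)` elements of `A`.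
5. (Thresholds.) Let `φ` be nondecreasing, `log N ≤ φ(N) ≤ N ^ o(1)` and `φ(N ^ 2) ≤ φ(N) ^ O(1)`. Let
   `Hosted φ` be the class of all sets `A` such that, for large `N`, the proportion `φ(N) ^ (-C)` of
   some set `S` of cost at most `φ(N) ^ C` is in `A`, and these elements make up the proportion
   `φ(N) ^ (-C)` of `|A ∩ [0, N)|` (nothing is assumed about the other elements). For EVERY class of
   sets between the one of the sets with `gram A N ≤ φ(N) ^ O(1)` and `Hosted φ`: `g` forces unbounded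
   representations inside the class if and only if for all `C` one has `√N / g(N) > φ(N) ^ C` for
   infinitely many `N`.
6. For `φ = log` the same holds for every class between the one of the morphic sets and `Hosted log`.

Method. (1) A set whose sums have many representations occurs only once in the building of `S`,
since two disjoint translates double the number. (2) Divide `S` into translates of
sets of the program with about `B` elements. Some set of the program has many translates in `S` in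
which `A` is dense; two of them have a large common part (Cauchy-Schwarz), and the two translates of
the common part double the number of representations. Iterate.
-/

set_option autoImplicit false

open Filter

namespace Pool.Agent.Results.MP_491344_nt.TranslateComplexity

open Pool.Agent.Helper42.GC (gram Scale IsAdic IsMorphic)
open Pool.Agent.Helper42.GP

/-- `r_A(n)`: the number of ordered pairs `(a, b) ∈ A × A` with `a + b = n`. -/
noncomputable def rep (A : Set ℕ) (n : ℕ) : ℕ :=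
  {p : ℕ × ℕ | p.1 ∈ A ∧ p.2 ∈ A ∧ p.1 + p.2 = n}.ncard

/-- `|A ∩ [1, N]| ≫ √N / g(N)` -/
def Dense (g : ℕ → ℝ) (A : Set ℕ) : Prop :=
  ∃ C : ℝ, 0 < C ∧ ∀ᶠ N : ℕ in atTop, Real.sqrt N / g N ≤ C * ((A ∩ Set.Icc 1 N).ncard : ℝ)

/-- `g` forces unbounded representations inside the class `𝒞` -/
def ForcesIn (𝒞 : Set ℕ → Prop) (g : ℕ → ℝ) : Prop :=
  ∀ A : Set ℕ, 𝒞 A → Dense g A → ∀ K : ℕ, ∃ n, K < rep A n

/-- **Cheap sets, their dense subsets, and thresholds.** -/
theorem result :
    -- 1. the finite subsets of `A` are not cheap, with the optimal exponent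
    (∀ (A : Set ℕ) (t : ℕ), (∀ n, rep A n < 2 ^ (t + 1)) →
      ∀ S : Finset ℕ, (S : Set ℕ) ⊆ A → S.card ≤ cost S ^ t) ∧
    (∀ t : ℕ, 1 ≤ t → ∃ A : Set ℕ, (∀ n, rep A n < 2 ^ (t + 1)) ∧ ∃ c : ℝ, 0 < c ∧
      ∀ M : ℕ, ∃ S : Finset ℕ, (S : Set ℕ) ⊆ A ∧ M ≤ S.card ∧ c * (cost S : ℝ) ^ t ≤ S.card) ∧
    -- 2. power saving in all finite sets
    (∀ (A : Set ℕ) (t : ℕ), (∀ n, rep A n < 2 ^ (t + 1)) → ∀ S : Finset ℕ,
      hits A S ^ (5 * 2 ^ t) ≤
        64 ^ (5 * 2 ^ t) * (40 * cost S) ^ (2 * t) * S.card ^ (5 * 2 ^ t - 1)) ∧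
    -- 3. cheap sets
    ((∀ S : Finset ℕ, cost S ≤ 2 * S.card + 1) ∧
      (∀ X Y : Finset ℕ,
        (∀ x ∈ X, ∀ y ∈ Y, ∀ x' ∈ X, ∀ y' ∈ Y, x + y = x' + y' → x = x') →
        cost ((X ×ˢ Y).image (fun p => p.1 + p.2)) ≤ cost X + cost Y + 1) ∧
      (∀ (M : Set ℕ) (N : ℕ), cost (seg M N) ≤ 2 * gram M N) ∧
      (∀ M : Set ℕ, IsMorphic M → IsAdic M) ∧
      (∀ M : Set ℕ, IsAdic M → ∃ C : ℝ, ∀ᶠ N : ℕ in atTop, (cost (seg M N) : ℝ) ≤ C * Real.log N) ∧
      (∀ (M A : Set ℕ) (t : ℕ), IsAdic M → (∀ n, rep A n < 2 ^ (t + 1)) →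
        ∃ C : ℝ, ∀ᶠ N : ℕ in atTop, (hits A (seg M N) : ℝ) ^ (5 * 2 ^ t) ≤
          C * Real.log N ^ (2 * t) * ((seg M N).card : ℝ) ^ (5 * 2 ^ t - 1))) ∧
    -- 4. sets as in the question with bounded representation function avoid cheap sets
    (∀ (t : ℕ) (β : ℝ), β < 1 / 2 → ∃ ε : ℝ, 0 < ε ∧ ∀ (A : Set ℕ) (g : ℕ → ℝ),
      (∀ n, rep A n < 2 ^ (t + 1)) → Dense g A →
      (∀ᶠ N : ℕ in atTop, 0 < g N ∧ g N ≤ (N : ℝ) ^ β) → ∀ᶠ N : ℕ in atTop, ∀ S : Finset ℕ,
        (cost S : ℝ) ≤ (N : ℝ) ^ ε → (N : ℝ) ^ ε * hits A S ≤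
          max (S.card : ℝ) ((A ∩ Set.Iio N).ncard : ℝ)) ∧
    -- 5. thresholds at all scales
    (∀ φ : ℕ → ℝ, Monotone φ → (∀ᶠ N : ℕ in atTop, Real.log N ≤ φ N) →
      (∃ c : ℕ, ∀ᶠ N : ℕ in atTop, φ (N ^ 2) ≤ φ N ^ c) →
      (∀ ε : ℝ, 0 < ε → ∀ᶠ N : ℕ in atTop, φ N ≤ (N : ℝ) ^ ε) →
      (∀ A : Set ℕ, Scale φ A → Hosted φ A) ∧
      ∀ 𝒞 : Set ℕ → Prop, (∀ A, Scale φ A → 𝒞 A) → (∀ A, 𝒞 A → Hosted φ A) → ∀ g : ℕ → ℝ,
        (ForcesIn 𝒞 g ↔ ∀ C : ℕ, ∃ᶠ N : ℕ in atTop, φ N ^ C < Real.sqrt N / g N)) ∧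
    -- 6. classes containing the morphic sets
    (∀ 𝒞 : Set ℕ → Prop, (∀ A, IsMorphic A → 𝒞 A) →
      (∀ A, 𝒞 A → Hosted (fun N => Real.log N) A) → ∀ g : ℕ → ℝ,
        (ForcesIn 𝒞 g ↔ ∀ C : ℕ, ∃ᶠ N : ℕ in atTop, Real.log N ^ C < Real.sqrt N / g N)) := by
  refine ⟨?_, ?_, ?_, ⟨cost_le_card, ?_, cost_seg, fun A h => h.adic, fun M h => adic_cost h, ?_⟩,
    ?_, ?_, ?_⟩
  · intro A t h S hS
    exact exact_ineq h hS
  · intro t ht
    exact exact_sharp ht
  · intro A t h S
    exact power h S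
  · intro X Y h
    exact ((built_cost X).add (built_cost Y) h).le
  · intro M A t hM h
    exact adic_power h hM
  · intro t β hβ
    exact avoid t hβ
  · rintro φ h1 h2 ⟨c, h3⟩ h4
    exact ⟨fun A hA => scale_hosted h2 hA, fun 𝒞 h5 h6 g => hosted_thr h1 h2 h3 h4 h5 h6 g⟩
  · intro 𝒞 h1 h2 g
    exact morphic_thr h1 h2 g

end Pool.Agent.Results.MP_491344_nt.TranslateComplexity
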